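import Pool.Agent.V11218.HDL

/-!
# Products of discretely Lindelöf spaces with compact spaces
-/

set_option autoImplicit false

open Set Topology

namespace Pool.Agent.Results.MP_0abb29_gt.HausdorffProduct

/-- A space is discretely Lindelöf if the closure of each discrete subset is Lindelöf. -/
def IsDiscretelyLindelof (X : Type*) [TopologicalSpace X] : Prop :=
  ∀ D : Set X, DiscreteTopology D → IsLindelof (closure D)

/-- The set `X` with the discrete topology. -/
def Disc (X : Type) : Type := X

instance (X : Type) : TopologicalSpace (Disc X) := ⊥

instance (X : Type) : DiscreteTopology (Disc X) := ⟨rfl⟩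

/-- The embedding of the discrete space `X` in its one-point compactification. -/
def emb {X : Type} (x : X) : OnePoint (Disc X) := OnePoint.some (show Disc X from x)

theorem emb_injective {X : Type} : Function.Injective (emb : X → OnePoint (Disc X)) :=
  OnePoint.coe_injective

/-- If the product of the discretely Lindelöf `T₁` space `X` with the one-point
compactification of the discrete space `X` is discretely Lindelöf, then `X` is Lindelöf. -/
theorem lindelof_of_prod (X : Type) [TopologicalSpace X] [T1Space X]
    (hX : IsDiscretelyLindelof X) (h : IsDiscretelyLindelof (X × OnePoint (Disc X))) :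
    LindelofSpace X := by
  -- the diagonal
  let D : Set (X × OnePoint (Disc X)) := range fun x : X => (x, emb x)
  have hopen : ∀ x : X, IsOpen ({emb x} : Set (OnePoint (Disc X))) := by
    intro x
    have : ({emb x} : Set (OnePoint (Disc X))) =
        (OnePoint.some : Disc X → OnePoint (Disc X)) '' {(show Disc X from x)} := by
      rw [image_singleton]
      rfl
    rw [this]
    exact OnePoint.isOpenEmbedding_coe.isOpenMap _ (isOpen_discrete _)
  have hD : DiscreteTopology D := by
    rw [discreteTopology_subtype_iff']
    rintro _ ⟨x, rfl⟩
    refine ⟨univ ×ˢ {emb x}, isOpen_univ.prod (hopen x), ?_⟩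
    ext ⟨y, z⟩
    constructor
    · rintro ⟨⟨-, hz⟩, w, hw⟩
      have h1 : w = y := congrArg Prod.fst hw
      have h2 : emb w = z := congrArg Prod.snd hw
      have hz' : z = emb x := hz
      rw [← h2] at hz'
      have h3 : w = x := emb_injective hz'
      rw [mem_singleton_iff]
      rw [← h1, ← h2, h3]
    · intro hy
      rw [mem_singleton_iff] at hy
      rw [hy]
      exact ⟨⟨mem_univ _, rfl⟩, x, rfl⟩
  have hcl := h D hD
  -- the derived set
  let I : Set X := {x | IsOpen ({x} : Set X)}
  have hI : DiscreteTopology I := by
    rw [discreteTopology_subtype_iff']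
    intro x hx
    refine ⟨{x}, hx, ?_⟩
    ext y
    constructor
    · exact fun h => h.1
    · intro h
      rw [mem_singleton_iff] at h
      subst h
      exact ⟨rfl, hx⟩
  have h1 : IsLindelof (closure I) := hX I hI
  have h2 : IsLindelof (closure D ∩ (univ ×ˢ {(OnePoint.infty : OnePoint (Disc X))})) :=
    hcl.inter_right (isClosed_univ.prod isClosed_singleton)
  have h3 : IsLindelof (Prod.fst '' (closure D ∩
      (univ ×ˢ {(OnePoint.infty : OnePoint (Disc X))}))) := h2.image continuous_fst
  have hsub : (univ : Set X) ⊆ closure I ∪ (Prod.fst '' (closure D ∩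
      (univ ×ˢ {(OnePoint.infty : OnePoint (Disc X))}))) := by
    intro x _
    by_cases hx : IsOpen ({x} : Set X)
    · exact Or.inl (subset_closure hx)
    · refine Or.inr ⟨(x, OnePoint.infty), ⟨?_, mem_univ _, rfl⟩, rfl⟩
      rw [mem_closure_iff]
      intro o ho hxo
      rw [isOpen_prod_iff] at ho
      obtain ⟨u, v, hu, hv, hxu, hiv, huv⟩ := ho _ _ hxo
      -- `v` contains all but finitely many points
      have hfin : ((OnePoint.some : Disc X → OnePoint (Disc X)) ⁻¹' v)ᶜ.Finite := by
        have := (OnePoint.isOpen_iff_of_mem hiv).1 hv
        exact isCompact_iff_finite.1 this.2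
      have hinf : (u \ {x}).Infinite := by
        intro hfin'
        apply hx
        have : ({x} : Set X) = u \ (u \ {x}) := by
          ext y
          simp only [mem_singleton_iff, mem_sdiff, not_and, not_not]
          constructor
          · rintro rfl
            exact ⟨hxu, fun _ => rfl⟩
          · intro hy
            exact hy.2 hy.1
        rw [this]
        exact hu.sdiff hfin'.isClosed
      obtain ⟨y, hy, hy'⟩ := hinf.exists_notMem_finite hfin
      refine ⟨(y, emb y), huv ⟨hy.1, ?_⟩, y, rfl⟩
      by_contra hcon
      exact hy' hcon
  have hl : IsLindelof (univ : Set X) := by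
    have heq : (univ : Set X) = closure I ∪ (Prod.fst '' (closure D ∩
      (univ ×ˢ {(OnePoint.infty : OnePoint (Disc X))}))) :=
      subset_antisymm hsub (subset_univ _)
    rw [heq]
    exact h1.union h3
  exact isLindelof_univ_iff.1 hl

/-- There are a Hausdorff discretely Lindelöf space `X` and a compact Hausdorff space `K`
such that `X × K` is not discretely Lindelöf. -/
theorem result : ∃ (X K : Type) (_ : TopologicalSpace X) (_ : TopologicalSpace K),
    T2Space X ∧ IsDiscretelyLindelof X ∧ CompactSpace K ∧ T2Space K ∧
      ¬ IsDiscretelyLindelof (X × K) := by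
  obtain ⟨X, i1, i2, h1, h2⟩ := Pool.Agent.V11218.HDL.exists_space
  have hX : IsDiscretelyLindelof X := fun D hD => by
    rw [isLindelof_iff_lindelofSpace]
    exact h1 D hD
  exact ⟨X, OnePoint (Disc X), inferInstance, inferInstance, i2, hX, inferInstance,
    inferInstance, fun h => h2 (lindelof_of_prod X hX h)⟩

end Pool.Agent.Results.MP_0abb29_gt.HausdorffProduct
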